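import Mathlib

/-!
# Project FU, module numA: binomial inequalities (helper10 for helper55)
-/

set_option autoImplicit false

namespace Pool.Agent.H10.FU

/-- the number of forms of degree `x` in `k + 1` variables -/
def G (k x : ℕ) : ℕ := (x + k).choose k

theorem G_succ (k x : ℕ) : (k + 1) * G (k + 1) x = (x + k + 1) * G k x := by
  unfold G
  have h := Nat.add_one_mul_choose_eq (x + k) k
  rw [show x + (k + 1) = x + k + 1 by ring, h]
  ring

theorem G_mono (k : ℕ) {x y : ℕ} (h : x ≤ y) : G k x ≤ G k y :=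
  Nat.choose_le_choose _ (by omega)

theorem G_pos (k x : ℕ) : 1 ≤ G k x := Nat.choose_pos (by omega)

theorem G_mul (k p q : ℕ) : G k p * G k q ≤ G k (p * q + p + q) := by
  induction k with
  | zero => simp [G]
  | succ k ih =>
    have h1 := G_succ k p
    have h2 := G_succ k q
    have h3 := G_succ k (p * q + p + q)
    have h4 : (k + 1) * ((k + 1) * (G (k + 1) p * G (k + 1) q)) ≤
        (k + 1) * ((k + 1) * G (k + 1) (p * q + p + q)) := by
      calc (k + 1) * ((k + 1) * (G (k + 1) p * G (k + 1) q)) =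
            ((k + 1) * G (k + 1) p) * ((k + 1) * G (k + 1) q) := by ring
        _ = ((p + k + 1) * (q + k + 1)) * (G k p * G k q) := by rw [h1, h2]; ring
        _ ≤ ((k + 1) * (p * q + p + q + k + 1)) * G k (p * q + p + q) := by
            refine Nat.mul_le_mul ?_ ih
            nlinarith [Nat.zero_le (k * (p * q))]
        _ = (k + 1) * ((k + 1) * G (k + 1) (p * q + p + q)) := by rw [h3]; ring
    have h5 : 0 < (k + 1) * (k + 1) := by positivity
    refine le_of_mul_le_mul_left (?_ : (k + 1) * (k + 1) * _ ≤ (k + 1) * (k + 1) * _) h5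
    rw [mul_assoc, mul_assoc]
    exact h4

theorem G_cube {k y : ℕ} (hk : 3 ≤ k) (hy : 2 ≤ y) : k * (y + 1) ^ 3 ≤ 18 * G k y := by
  induction k, hk using Nat.le_induction with
  | base =>
    have h1 := G_succ 2 y
    have h2 := G_succ 1 y
    have h3 := G_succ 0 y
    have h4 : G 0 y = 1 := by simp [G]
    rw [h4] at h3
    have h5 : G 1 y = y + 1 := by simpa using h3
    have h2' : 2 * G 2 y = (y + 2) * G 1 y := h2
    rw [h5] at h2'
    have h6 : 6 * G 3 y = (y + 3) * ((y + 2) * (y + 1)) := by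
      have h7 : 2 * G 2 y = (y + 2) * (y + 1) := h2'
      have h8 : 3 * G 3 y = (y + 3) * G 2 y := h1
      calc 6 * G 3 y = 2 * (3 * G 3 y) := by ring
        _ = (y + 3) * (2 * G 2 y) := by rw [h8]; ring
        _ = _ := by rw [h7]
    nlinarith [h6]
  | succ k hk ih =>
    have h1 := G_succ k y
    have h2 : (k + 1) * ((k + 1) * (y + 1) ^ 3) ≤ (k + 1) * (18 * G (k + 1) y) := by
      calc (k + 1) * ((k + 1) * (y + 1) ^ 3) = ((k + 1) * (k + 1)) * (y + 1) ^ 3 := by ring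
        _ ≤ ((y + k + 1) * k) * (y + 1) ^ 3 := by
            refine Nat.mul_le_mul_right _ ?_
            nlinarith
        _ = (y + k + 1) * (k * (y + 1) ^ 3) := by ring
        _ ≤ (y + k + 1) * (18 * G k y) := Nat.mul_le_mul_left _ ih
        _ = (k + 1) * (18 * G (k + 1) y) := by
            calc (y + k + 1) * (18 * G k y) = 18 * ((y + k + 1) * G k y) := by ring
              _ = 18 * ((k + 1) * G (k + 1) y) := by rw [h1]
              _ = _ := by ring
    exact le_of_mul_le_mul_left h2 (by positivity)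

/-- the number of forms of degree `x - 1` in `k + 1` variables -/
def F (k x : ℕ) : ℕ := G k (x - 1)

theorem F_mono (k : ℕ) {x y : ℕ} (h : x ≤ y) : F k x ≤ F k y := G_mono k (by omega)

theorem F_pos (k x : ℕ) : 1 ≤ F k x := G_pos _ _

theorem F_mul (k : ℕ) {x y : ℕ} (hx : 1 ≤ x) (hy : 1 ≤ y) : F k x * F k y ≤ F k (x * y) := by
  obtain ⟨p, rfl⟩ : ∃ p, x = p + 1 := ⟨x - 1, by omega⟩
  obtain ⟨q, rfl⟩ : ∃ q, y = q + 1 := ⟨y - 1, by omega⟩
  unfold F
  have h := G_mul k p q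
  have h1 : (p + 1) * (q + 1) - 1 = p * q + p + q := by
    have : (p + 1) * (q + 1) = p * q + p + q + 1 := by ring
    omega
  rw [h1]
  exact h

theorem F_cube {k Y : ℕ} (hk : 3 ≤ k) (hY : 3 ≤ Y) : k * Y ^ 3 ≤ 18 * F k Y := by
  have h := G_cube hk (show 2 ≤ Y - 1 by omega)
  rw [Nat.sub_add_cancel (by omega)] at h
  exact h

theorem F_ge {k x : ℕ} (hk : 1 ≤ k) (hx : 1 ≤ x) : x ≤ F k x := by
  unfold F G
  obtain ⟨p, rfl⟩ : ∃ p, x = p + 1 := ⟨x - 1, by omega⟩
  obtain ⟨l, rfl⟩ : ∃ l, k = l + 1 := ⟨k - 1, by omega⟩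
  rw [Nat.add_sub_cancel]
  calc p + 1 = (p + 1).choose 1 := by simp
    _ = (p + 1).choose p := by
        have := Nat.choose_symm_add (a := p) (b := 1)
        rw [this]
    _ ≤ (p + (l + 1)).choose p := Nat.choose_le_choose _ (by omega)
    _ = (p + (l + 1)).choose (l + 1) := Nat.choose_symm_add

/-- the main estimates -/
theorem main {k m e : ℕ} (hk : 3 ≤ k) (hm : 1 ≤ m) (he : 728 * m ^ 4 ≤ e) :
    14000 * (k * F k m ^ 3 * (e + 1)) ≤ m * G k e ∧
      300000 * (k * m ^ 3 * F k (4 * m ^ 3)) ≤ G k e := by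
  have hm3 : 0 < m ^ 3 := by positivity
  obtain ⟨Y, hY⟩ : ∃ Y, Y = (e + 1) / m ^ 3 := ⟨_, rfl⟩
  have hY1 : 728 * m ≤ Y := by
    rw [hY, Nat.le_div_iff_mul_le hm3]
    calc 728 * m * m ^ 3 = 728 * m ^ 4 := by ring
      _ ≤ e + 1 := by omega
  have hY2 : m ^ 3 * Y ≤ e + 1 := by rw [hY]; exact Nat.mul_div_le _ _
  have hY3 : e + 1 < m ^ 3 * (Y + 1) := by rw [hY]; exact Nat.lt_mul_div_succ _ hm3
  have hN : F k (m ^ 3 * Y) ≤ G k e := G_mono k (by omega)
  have hYp : 728 ≤ Y := by nlinarith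
  constructor
  · have h1 : F k m ^ 3 * F k Y ≤ G k e := by
      calc F k m ^ 3 * F k Y = F k m * F k m * F k m * F k Y := by ring
        _ ≤ F k (m * m) * F k m * F k Y := by
            gcongr
            exact F_mul k hm hm
        _ ≤ F k (m * m * m) * F k Y := by
            gcongr
            exact F_mul k (by nlinarith) hm
        _ ≤ F k (m * m * m * Y) := F_mul k (Nat.succ_le_of_lt (by positivity)) (by omega)
        _ = F k (m ^ 3 * Y) := by ring_nf
        _ ≤ G k e := hN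
    have h2 := F_cube hk (show 3 ≤ Y by omega)
    have h3 : 264992 * (e + 1) ≤ m * Y ^ 3 := by
      have h5 : (728 * m) ^ 2 ≤ Y ^ 2 := Nat.pow_le_pow_left hY1 2
      calc 264992 * (e + 1) ≤ 264992 * (m ^ 3 * (Y + 1)) := Nat.mul_le_mul_left _ hY3.le
        _ ≤ 264992 * (m ^ 3 * (2 * Y)) := by gcongr; omega
        _ = m * Y * (728 * m) ^ 2 := by ring
        _ ≤ m * Y * Y ^ 2 := Nat.mul_le_mul_left _ h5
        _ = m * Y ^ 3 := by ring
    have h4 : 264992 * (k * F k m ^ 3 * (e + 1)) ≤ 18 * (m * G k e) := by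
      calc 264992 * (k * F k m ^ 3 * (e + 1)) = k * F k m ^ 3 * (264992 * (e + 1)) := by ring
        _ ≤ k * F k m ^ 3 * (m * Y ^ 3) := Nat.mul_le_mul_left _ h3
        _ = m * F k m ^ 3 * (k * Y ^ 3) := by ring
        _ ≤ m * F k m ^ 3 * (18 * F k Y) := Nat.mul_le_mul_left _ h2
        _ = 18 * (m * (F k m ^ 3 * F k Y)) := by ring
        _ ≤ 18 * (m * G k e) := by gcongr
    omega
  · obtain ⟨Z, hZ⟩ : ∃ Z, Z = Y / 4 := ⟨_, rfl⟩
    have hZ1 : 182 * m ≤ Z := by omega
    have hZ2 : 4 * Z ≤ Y := by omega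
    have h1 : F k (4 * m ^ 3) * F k Z ≤ G k e := by
      calc F k (4 * m ^ 3) * F k Z ≤ F k (4 * m ^ 3 * Z) := F_mul k (by omega) (by omega)
        _ ≤ F k (m ^ 3 * Y) := F_mono k (by
            calc 4 * m ^ 3 * Z = m ^ 3 * (4 * Z) := by ring
              _ ≤ m ^ 3 * Y := Nat.mul_le_mul_left _ hZ2)
        _ ≤ G k e := hN
    have h2 := F_cube hk (show 3 ≤ Z by omega)
    have h3 : (182 * m) ^ 3 ≤ Z ^ 3 := Nat.pow_le_pow_left hZ1 3
    have h4 : 6028568 * (k * m ^ 3 * F k (4 * m ^ 3)) ≤ 18 * G k e := by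
      calc 6028568 * (k * m ^ 3 * F k (4 * m ^ 3)) = k * F k (4 * m ^ 3) * (182 * m) ^ 3 := by ring
        _ ≤ k * F k (4 * m ^ 3) * Z ^ 3 := Nat.mul_le_mul_left _ h3
        _ = F k (4 * m ^ 3) * (k * Z ^ 3) := by ring
        _ ≤ F k (4 * m ^ 3) * (18 * F k Z) := Nat.mul_le_mul_left _ h2
        _ = 18 * (F k (4 * m ^ 3) * F k Z) := by ring
        _ ≤ 18 * G k e := Nat.mul_le_mul_left _ h1
    omega

end Pool.Agent.H10.FU
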