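import Mathlib

/-!
# Project FU, module numA: the arithmetic (helper10 for helper55)
-/

set_option autoImplicit false

namespace Pool.Agent.H10.FU

theorem cnd {E m e N N' S : ℕ} (hm : 1 ≤ m) (he : 2 * m ≤ e + 3)
    (hr : N * (e + E + 2) = N' * (e + 1)) (hS : 2 * ((m + E) * S) ≤ (E + 1) * N) :
    (m - 1) * N' + (m + E) * S ≤ (m + E) * N := by
  obtain ⟨p, rfl⟩ : ∃ p, m = p + 1 := ⟨m - 1, by omega⟩
  rw [Nat.add_sub_cancel]
  obtain ⟨f, hf, hf2⟩ : ∃ f, e + 1 = p + f ∧ e + 1 ≤ 2 * f := ⟨e + 1 - p, by omega, by omega⟩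
  have h1 : (e + 1) * (p * N' + (p + 1 + E) * S) ≤ (e + 1) * ((p + 1 + E) * N) := by
    calc (e + 1) * (p * N' + (p + 1 + E) * S) =
          p * (N' * (e + 1)) + (e + 1) * ((p + 1 + E) * S) := by ring
      _ ≤ p * (N' * (e + 1)) + (2 * f) * ((p + 1 + E) * S) := by gcongr
      _ = p * (N * (e + E + 2)) + f * (2 * ((p + 1 + E) * S)) := by rw [hr]; ring
      _ ≤ p * (N * (e + E + 2)) + f * ((E + 1) * N) := by gcongr
      _ = N * (p * ((e + 1) + E + 1) + f * (E + 1)) := by ring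
      _ = N * ((p + f) * (p + 1 + E)) := by rw [hf]; ring
      _ = (e + 1) * ((p + 1 + E) * N) := by rw [← hf]; ring
  exact le_of_mul_le_mul_left h1 (by omega)

theorem core {E m a s t P NL dL N e : ℕ} (hE : 2 ≤ E) (hm : 1 ≤ m) (ha : 1 ≤ a) (hs : 1 ≤ s)
    (hms : m ≤ s) (hR : (m + E) * a = (E + 1) * s) (hT : (E + 2) * t = (m + E + 1) * s)
    (hNL : NL ≤ P) (hdL : dL * s ≤ 4 * m ^ 2 * P) (he : 728 * m ^ 4 ≤ e)
    (M1 : 14000 * ((E + 1) * s ^ 3 * (e + 1)) ≤ m * N)
    (M2 : 300000 * ((E + 1) * m ^ 3 * P) ≤ N) :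
    2 * ((m + E) * ((a * s + 1 + s) * s + (a * s + 1) +
      (m * (NL + (a * s + s)) + s * t + (e + 1) * (a * s + s)))) ≤ (E + 1) * N ∧
    (m + E + 1) * ((a * s + 1 + s) * s) ≤ N ∧
    (E + 2) * (m * (t * (dL + e * (a * s + 1 + s)))) < (e + E + 2) * N ∧
    (dL + e * (a * s + 1 + s)) * s + (a * s + 1) +
      (m * (NL + (a * s + s)) + s * t + e * (a * s + s)) ≤ N := by
  have has : a ≤ s := by
    have h1 : (E + 1) * a ≤ (E + 1) * s := by
      rw [← hR]
      exact Nat.mul_le_mul_right _ (by omega)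
    exact le_of_mul_le_mul_left h1 (by omega)
  have hmE : m + E ≤ m * (E + 1) := by
    obtain ⟨p, rfl⟩ : ∃ p, m = p + 1 := ⟨m - 1, by omega⟩
    nlinarith [Nat.zero_le (p * E)]
  have hmE2 : m + E + 1 ≤ (E + 2) * m := by
    obtain ⟨p, rfl⟩ : ∃ p, m = p + 1 := ⟨m - 1, by omega⟩
    nlinarith [Nat.zero_le (p * E)]
  have ht : t ≤ m * s := by
    have h1 : (E + 2) * t ≤ (E + 2) * (m * s) := by
      rw [hT]
      calc (m + E + 1) * s ≤ (E + 2) * m * s := Nat.mul_le_mul_right _ hmE2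
        _ = (E + 2) * (m * s) := by ring
    exact le_of_mul_le_mul_left h1 (by omega)
  have hm4 : m ^ 2 ≤ m ^ 4 := Nat.pow_le_pow_right hm (by norm_num)
  have hm2 : m ≤ m ^ 2 := Nat.le_self_pow (by norm_num) m
  have hme : m ^ 2 ≤ e := by omega
  have D1 : 14000 * ((E + 1) * s ^ 3) ≤ N := by
    have h1 : m * (14000 * ((E + 1) * s ^ 3)) ≤ m * N := by
      refine le_trans ?_ M1
      calc m * (14000 * ((E + 1) * s ^ 3)) = 14000 * ((E + 1) * s ^ 3 * m) := by ring
        _ ≤ 14000 * ((E + 1) * s ^ 3 * (e + 1)) := by gcongr; omega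
    exact le_of_mul_le_mul_left h1 (by omega)
  have D2 : 14000 * ((E + 1) * s ^ 2 * (e + 1)) ≤ N := by
    have h1 : m * (14000 * ((E + 1) * s ^ 2 * (e + 1))) ≤ m * N := by
      refine le_trans ?_ M1
      calc m * (14000 * ((E + 1) * s ^ 2 * (e + 1))) =
            14000 * ((E + 1) * s ^ 2 * m * (e + 1)) := by ring
        _ ≤ 14000 * ((E + 1) * s ^ 2 * s * (e + 1)) := by gcongr
        _ = 14000 * ((E + 1) * s ^ 3 * (e + 1)) := by ring
    exact le_of_mul_le_mul_left h1 (by omega)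
  have D3 : 14000 * (a * s ^ 2 * (e + 1)) ≤ N := by
    have h1 : (m + E) * (14000 * (a * s ^ 2 * (e + 1))) ≤ (m + E) * N := by
      calc (m + E) * (14000 * (a * s ^ 2 * (e + 1))) =
            14000 * ((m + E) * a * s ^ 2 * (e + 1)) := by ring
        _ = 14000 * ((E + 1) * s ^ 3 * (e + 1)) := by rw [hR]; ring
        _ ≤ m * N := M1
        _ ≤ (m + E) * N := Nat.mul_le_mul_right _ (by omega)
    exact le_of_mul_le_mul_left h1 (by omega)
  have hP : 900000 * (m ^ 2 * P) ≤ N := by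
    refine le_trans ?_ M2
    calc 900000 * (m ^ 2 * P) = 300000 * (3 * (m ^ 2 * 1) * P) := by ring
      _ ≤ 300000 * ((E + 1) * (m ^ 2 * m) * P) := by gcongr; omega
      _ = 300000 * ((E + 1) * m ^ 3 * P) := by ring
  have has1 : 1 ≤ a * s := Nat.mul_pos ha hs
  have h1as : s ≤ a * s := Nat.le_mul_of_pos_left s ha
  have hRg : (a * s + 1 + s) * s ≤ 3 * (a * s ^ 2) := by
    calc (a * s + 1 + s) * s ≤ (a * s + a * s + a * s) * s := by gcongr
      _ = 3 * (a * s ^ 2) := by ring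
  have has2 : a * s ≤ a * s ^ 2 := by
    calc a * s = a * (s * 1) := by ring
      _ ≤ a * (s * s) := by gcongr
      _ = a * s ^ 2 := by ring
  have hst : s * t ≤ m * s ^ 2 := by
    calc s * t ≤ s * (m * s) := Nat.mul_le_mul_left _ ht
      _ = m * s ^ 2 := by ring
  have hB : (m + E + 1) * ((a * s + 1 + s) * s) ≤ 6 * ((E + 1) * s ^ 3) := by
    calc (m + E + 1) * ((a * s + 1 + s) * s) ≤ (2 * (m + E)) * (3 * (a * s ^ 2)) := by
          gcongr; omega
      _ = 6 * ((m + E) * a * s ^ 2) := by ring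
      _ = 6 * ((E + 1) * s ^ 3) := by rw [hR]; ring
  refine ⟨?_, by omega, ?_, ?_⟩
  · have h1 : (a * s + 1 + s) * s + (a * s + 1) +
        (m * (NL + (a * s + s)) + s * t + (e + 1) * (a * s + s)) ≤
        5 * (a * s ^ 2) + 4 * ((e + 1) * (a * s)) + m * P + m * s ^ 2 := by
      have h2 : m * (NL + (a * s + s)) ≤ m * P + (e + 1) * (2 * (a * s)) := by
        calc m * (NL + (a * s + s)) = m * NL + m * (a * s + s) := by ring
          _ ≤ m * P + (e + 1) * (2 * (a * s)) := by gcongr <;> omega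
      have h3 : (e + 1) * (a * s + s) ≤ (e + 1) * (2 * (a * s)) := by gcongr; omega
      have h4 : (e + 1) * (2 * (a * s)) = 2 * ((e + 1) * (a * s)) := by ring
      omega
    calc 2 * ((m + E) * ((a * s + 1 + s) * s + (a * s + 1) +
          (m * (NL + (a * s + s)) + s * t + (e + 1) * (a * s + s)))) ≤
          2 * ((m + E) * (5 * (a * s ^ 2) + 4 * ((e + 1) * (a * s)) + m * P + m * s ^ 2)) := by
          gcongr
      _ = 10 * ((m + E) * a * s ^ 2) + 8 * ((m + E) * a * ((e + 1) * s)) +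
          2 * ((m + E) * (m * P)) + 2 * ((m + E) * (m * s ^ 2)) := by ring
      _ = 10 * ((E + 1) * s * s ^ 2) + 8 * ((E + 1) * s * ((e + 1) * s)) +
          2 * ((m + E) * (m * P)) + 2 * ((m + E) * (m * s ^ 2)) := by rw [hR]
      _ ≤ 10 * ((E + 1) * s * s ^ 2) + 8 * ((E + 1) * s * ((e + 1) * s)) +
          2 * (m * (E + 1) * (m * P)) + 2 * (m * (E + 1) * (m * s ^ 2)) := by gcongr
      _ = (E + 1) * (10 * s ^ 3 + 8 * (s ^ 2 * (e + 1)) + 2 * (m ^ 2 * P) +
          2 * (s ^ 2 * m ^ 2)) := by ring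
      _ ≤ (E + 1) * (10 * s ^ 3 + 8 * (s ^ 2 * (e + 1)) + 2 * (m ^ 2 * P) +
          2 * (s ^ 2 * (e + 1))) := by gcongr; omega
      _ ≤ (E + 1) * N := by
          refine Nat.mul_le_mul_left _ ?_
          have h2 : s ^ 3 ≤ (E + 1) * s ^ 3 := Nat.le_mul_of_pos_left _ (by omega)
          have h3 : s ^ 2 * (e + 1) ≤ (E + 1) * s ^ 2 * (e + 1) := by
            rw [mul_assoc]
            exact Nat.le_mul_of_pos_left _ (by omega)
          omega
  · have hN : 1 ≤ N := by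
      have h1 : 1 ≤ (E + 1) * s ^ 3 := Nat.mul_pos (by omega) (by positivity)
      omega
    have h1 : (E + 2) * (m * (t * (dL + e * (a * s + 1 + s)))) =
        m * (m + E + 1) * (dL * s) + m * e * ((m + E + 1) * ((a * s + 1 + s) * s)) := by
      calc (E + 2) * (m * (t * (dL + e * (a * s + 1 + s)))) =
            m * ((E + 2) * t) * (dL + e * (a * s + 1 + s)) := by ring
        _ = m * ((m + E + 1) * s) * (dL + e * (a * s + 1 + s)) := by rw [hT]
        _ = _ := by ring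
    have h2 : m * (m + E + 1) * (dL * s) ≤ m * N := by
      calc m * (m + E + 1) * (dL * s) ≤ m * ((E + 2) * m) * (4 * m ^ 2 * P) := by gcongr
        _ ≤ m * ((2 * (E + 1)) * m) * (4 * m ^ 2 * P) := by gcongr; omega
        _ = m * (8 * ((E + 1) * m ^ 3 * P)) := by ring
        _ ≤ m * N := Nat.mul_le_mul_left _ (by omega)
    have h3 : m * e * ((m + E + 1) * ((a * s + 1 + s) * s)) ≤ m ^ 2 * N := by
      calc m * e * ((m + E + 1) * ((a * s + 1 + s) * s)) ≤ m * (e + 1) * (6 * ((E + 1) * s ^ 3)) := by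
            gcongr; omega
        _ = m * (6 * ((E + 1) * s ^ 3 * (e + 1))) := by ring
        _ ≤ m * (m * N) := Nat.mul_le_mul_left _ (by omega)
        _ = m ^ 2 * N := by ring
    have h4 : m * N + m ^ 2 * N < (e + E + 2) * N := by
      rw [← add_mul]
      refine Nat.mul_lt_mul_of_pos_right ?_ hN
      have : 1 ≤ m ^ 2 := Nat.one_le_pow _ _ hm
      omega
    omega
  · have h2 : e * (a * s + 1 + s) * s ≤ 3 * (a * s ^ 2 * (e + 1)) := by
      calc e * (a * s + 1 + s) * s = e * ((a * s + 1 + s) * s) := by ring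
        _ ≤ (e + 1) * (3 * (a * s ^ 2)) := by gcongr; omega
        _ = 3 * (a * s ^ 2 * (e + 1)) := by ring
    have h3 : m * (NL + (a * s + s)) ≤ m ^ 2 * P + 2 * (a * s ^ 2 * (e + 1)) := by
      calc m * (NL + (a * s + s)) = m * NL + m * (a * s + s) := by ring
        _ ≤ m ^ 2 * P + (e + 1) * (2 * (a * s ^ 2)) := by gcongr <;> omega
        _ = _ := by ring
    have h4 : e * (a * s + s) ≤ 2 * (a * s ^ 2 * (e + 1)) := by
      calc e * (a * s + s) ≤ (e + 1) * (2 * (a * s ^ 2)) := by gcongr <;> omega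
        _ = _ := by ring
    have h5 : a * s + 1 ≤ 2 * (a * s ^ 2 * (e + 1)) := by
      calc a * s + 1 ≤ 2 * (a * s ^ 2 * 1) := by omega
        _ ≤ 2 * (a * s ^ 2 * (e + 1)) := by gcongr; omega
    have h6 : s * t ≤ (E + 1) * s ^ 2 * (e + 1) := by
      calc s * t ≤ m * s ^ 2 := hst
        _ ≤ (e + 1) * s ^ 2 := by gcongr; omega
        _ = 1 * s ^ 2 * (e + 1) := by ring
        _ ≤ (E + 1) * s ^ 2 * (e + 1) := by gcongr; omega
    have h7 : (dL + e * (a * s + 1 + s)) * s = dL * s + e * (a * s + 1 + s) * s := by ring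
    have h8 : 4 * m ^ 2 * P = 4 * (m ^ 2 * P) := by ring
    omega

end Pool.Agent.H10.FU
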