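import Pool.Agent.H55.FU.Stm
import Pool.Agent.H10.FU.Num0
import Pool.Agent.H10.FU.Num1

/-!
# Project FU, module numA (helper10 for helper55)
-/

set_option autoImplicit false

namespace Pool.Agent.H10.FU

open Pool.Agent.W608.PR Pool.Agent.H55.FU

theorem sz_F (E : ℕ) {m : ℕ} (hm : 1 ≤ m) : sz E m = F (E + 1) m := by
  unfold sz F G
  congr 1
  omega

theorem Nn_G (E e : ℕ) : Nn E e = G (E + 1) e := rfl

theorem aa_F (E m : ℕ) : aa E m = F E m := rfl

/-- the facts used in a degree `e` -/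
theorem facts {E m e : ℕ} (hE : 2 ≤ E) (hm : 1 ≤ m) (he : 728 * m ^ 4 ≤ e) :
    2 * ((m + E) * (Rg E m (kA E m) * sz E m + kA E m +
      Xg E m (cA E m) (cB E m) (2 * m ^ 2 + m) (e + 1))) ≤ (E + 1) * Nn E e ∧
    (m + E + 1) * (Rg E m (kA E m) * sz E m) ≤ Nn E e ∧
    m * (Sz E m * Qg E m (kA E m) (2 * m ^ 2 + m) e) < dm E e ∧
    Qg E m (kA E m) (2 * m ^ 2 + m) e * sz E m + kA E m +
      Xg E m (cA E m) (cB E m) (2 * m ^ 2 + m) e ≤ Nn E e := by
  have hm23 : m ^ 2 ≤ m ^ 3 := Nat.pow_le_pow_right hm (by norm_num)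
  have hm13 : m ≤ m ^ 3 := Nat.le_self_pow (by norm_num) m
  have hm12 : m ≤ m ^ 2 := Nat.le_self_pow (by norm_num) m
  have hm3 : 1 ≤ m ^ 3 := Nat.one_le_pow _ _ hm
  have hm2 : 1 ≤ m ^ 2 := Nat.one_le_pow _ _ hm
  have hs : sz E m = F (E + 1) m := sz_F E hm
  have hcB : aa (E + 1) m = sz E m := hs.symm
  have hR : (m + E) * aa E m = (E + 1) * sz E m := by
    have h := G_succ E (m - 1)
    rw [hs]
    unfold F
    rw [h, aa_F]
    unfold F
    congr 1
    omega
  have hT := Sz_ratio E m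
  have hNL : Nn E (2 * m ^ 2 + m) ≤ F (E + 1) (4 * m ^ 3) := by
    rw [Nn_G]
    exact G_mono _ (by omega)
  have hLs : Nn E (2 * m ^ 2 + m) * sz E m ≤ F (E + 1) (4 * m ^ 3) := by
    rw [Nn_G, hs]
    calc G (E + 1) (2 * m ^ 2 + m) * F (E + 1) m = F (E + 1) (2 * m ^ 2 + m + 1) * F (E + 1) m := rfl
      _ ≤ F (E + 1) ((2 * m ^ 2 + m + 1) * m) := F_mul _ (by omega) hm
      _ ≤ F (E + 1) (4 * m ^ 3) := F_mono _ (by
          calc (2 * m ^ 2 + m + 1) * m = 2 * m ^ 3 + m ^ 2 + m := by ring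
            _ ≤ 4 * m ^ 3 := by omega)
  have hdL : dm E (2 * m ^ 2 + m) * sz E m ≤ 4 * m ^ 2 * F (E + 1) (4 * m ^ 3) := by
    have h1 : dm E (2 * m ^ 2 + m) ≤ 4 * m ^ 2 * Nn E (2 * m ^ 2 + m) := by
      have h2 := dm_up E (2 * m ^ 2 + m)
      have h3 : (E + 2) * dm E (2 * m ^ 2 + m) ≤ (E + 2) * (4 * m ^ 2 * Nn E (2 * m ^ 2 + m)) := by
        rw [h2]
        calc (2 * m ^ 2 + m + E + 2) * Nn E (2 * m ^ 2 + m) ≤
              ((E + 2) * (4 * m ^ 2)) * Nn E (2 * m ^ 2 + m) := by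
              refine Nat.mul_le_mul_right _ ?_
              calc 2 * m ^ 2 + m + E + 2 ≤ E * 1 + 2 * (4 * m ^ 2) := by omega
                _ ≤ E * (4 * m ^ 2) + 2 * (4 * m ^ 2) := by gcongr; omega
                _ = (E + 2) * (4 * m ^ 2) := by ring
          _ = (E + 2) * (4 * m ^ 2 * Nn E (2 * m ^ 2 + m)) := by ring
      exact le_of_mul_le_mul_left h3 (by omega)
    calc dm E (2 * m ^ 2 + m) * sz E m ≤ 4 * m ^ 2 * Nn E (2 * m ^ 2 + m) * sz E m :=
          Nat.mul_le_mul_right _ h1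
      _ = 4 * m ^ 2 * (Nn E (2 * m ^ 2 + m) * sz E m) := by ring
      _ ≤ _ := Nat.mul_le_mul_left _ hLs
  have hM := main (k := E + 1) (by omega) hm he
  rw [← hs, ← Nn_G] at hM
  have hms : m ≤ sz E m := by rw [hs]; exact F_ge (by omega) hm
  have ha1 : 1 ≤ aa E m := F_pos _ _
  have hC := core (E := E) (m := m) (a := aa E m) (s := sz E m) (t := Sz E m)
    (P := F (E + 1) (4 * m ^ 3)) (NL := Nn E (2 * m ^ 2 + m)) (dL := dm E (2 * m ^ 2 + m))
    (N := Nn E e) (e := e) hE hm ha1 (by omega) hms hR hT hNL hdL he hM.1 hM.2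
  have hdm := dm_up E e
  have hcB2 : cB E m = sz E m * Sz E m := by unfold cB; rw [hcB]
  refine ⟨?_, hC.2.1, ?_, ?_⟩
  · unfold Xg
    rw [hcB2]
    exact hC.1
  · have h1 := hC.2.2.1
    rw [← hdm] at h1
    exact lt_of_mul_lt_mul_left h1 (Nat.zero_le _)
  · unfold Xg
    rw [hcB2]
    exact hC.2.2.2

/-- MODULE numA -/
theorem numA : S_numA := by
  intro E m hE hm
  have hm24 : m ^ 2 ≤ m ^ 4 := Nat.pow_le_pow_right hm (by norm_num)
  have hm14 : m ≤ m ^ 4 := Nat.le_self_pow (by norm_num) m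
  have hm12 : m ≤ m ^ 2 := Nat.le_self_pow (by norm_num) m
  have hm4 : 1 ≤ m ^ 4 := Nat.one_le_pow _ _ hm
  have hs : sz E m = F (E + 1) m := sz_F E hm
  constructor
  · have hR : (m + E) * aa E m = (E + 1) * sz E m := by
      have h := G_succ E (m - 1)
      rw [hs]
      unfold F
      rw [h, aa_F]
      unfold F
      congr 1
      omega
    have has : aa E m ≤ sz E m := by
      have h1 : (E + 1) * aa E m ≤ (E + 1) * sz E m := by
        rw [← hR]
        exact Nat.mul_le_mul_right _ (by omega)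
      exact le_of_mul_le_mul_left h1 (by omega)
    have h1 : 4 * (sz E m * sz E m) ≤ Nn E (2 * m ^ 2) := by
      have hF2 : F (E + 1) 2 = E + 2 := by
        unfold F G
        have : 2 - 1 + (E + 1) = E + 1 + 1 := by omega
        rw [this, Nat.choose_succ_self_right]
      calc 4 * (sz E m * sz E m) ≤ (E + 2) * (sz E m * sz E m) := by gcongr; omega
        _ = F (E + 1) 2 * (F (E + 1) m * F (E + 1) m) := by rw [hF2, hs]
        _ ≤ F (E + 1) 2 * F (E + 1) (m * m) := Nat.mul_le_mul_left _ (F_mul _ hm hm)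
        _ ≤ F (E + 1) (2 * (m * m)) := F_mul _ (by omega) (by nlinarith)
        _ ≤ F (E + 1) (2 * m ^ 2 + 1) := F_mono _ (by
            have : m * m = m ^ 2 := by ring
            omega)
        _ = Nn E (2 * m ^ 2) := rfl
    have h2 : 1 ≤ sz E m * sz E m := by
      have : 1 ≤ sz E m := by rw [hs]; exact F_pos _ _
      exact Nat.mul_pos this this
    have h3 : aa E m * sz E m ≤ sz E m * sz E m := Nat.mul_le_mul_right _ has
    unfold kA
    omega
  · intro d hd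
    have hF := facts hE hm (show 728 * m ^ 4 ≤ d by omega)
    refine ⟨by omega, ?_, hF.2.2.1, hF.2.2.2⟩
    intro e he1 he2
    have he : 728 * m ^ 4 ≤ e := by omega
    have hG := facts hE hm he
    refine ⟨?_, ?_, by omega⟩
    · exact cnd hm (by omega) (Nn_ratio E e) hG.1
    · have h1 := hG.2.1
      have h2 : Nn E e ≤ Nn E (e + 1) := Nn_mono E (Nat.le_succ e)
      calc (m + E + 1) * (Rg E m (kA E m) * sz E m) + m * Nn E (e + 1) ≤
            Nn E (e + 1) + m * Nn E (e + 1) := Nat.add_le_add_right (h1.trans h2) _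
        _ = (m + 1) * Nn E (e + 1) := by ring
        _ ≤ (e + 2) * Nn E (e + 1) := Nat.mul_le_mul_right _ (by omega)

end Pool.Agent.H10.FU
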